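import Pool.Agent.W221.NS.Stm2
import Pool.Agent.W645.MD.Flowc

set_option autoImplicit false

/-!
# The flow of a vector field changes volumes by a bounded factor
-/

open MeasureTheory Set Metric Filter Topology
open scoped ContDiff ENNReal

namespace Pool.Agent.W460.ME

open H459R3.NS W221.NS
open Pool.Agent.W645.MD (pair_norm mvt Ye Ye_disp tau_mem supp_step pow_le_exp')

/-- the displacement of a trajectory -/
theorem g_lip {U : ℝ → V → V} {α β : ℝ} {g : ℝ → V} (hgc : ContinuousOn g (Icc α β))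
    (hode : ∀ t ∈ Ioo α β, HasDerivAt g (U t (g t)) t) {M : ℝ}
    (hM0 : 0 ≤ M) (hM : ∀ t ∈ Icc α β, ∀ x, ‖U t x‖ ≤ M) {s t : ℝ} (hs : s ∈ Icc α β)
    (ht : t ∈ Icc α β) (hst : s ≤ t) : ‖g t - g s‖ ≤ M * (t - s) := by
  have hsub : Icc s t ⊆ Icc α β := Icc_subset_Icc hs.1 ht.2
  exact mvt hst hM0 (hgc.mono hsub) (g' := fun τ => U τ (g τ)) (fun τ hτ => hode τ
    ⟨lt_of_le_of_lt hs.1 hτ.1, lt_of_lt_of_le hτ.2 ht.2⟩) (fun τ hτ => hM τ (hsub ⟨hτ.1.le, hτ.2.le⟩) _)

/-- one step -/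
theorem g_step {U : ℝ → V → V} {α β : ℝ} {g : ℝ → V} (hgc : ContinuousOn g (Icc α β))
    (hode : ∀ t ∈ Ioo α β, HasDerivAt g (U t (g t)) t) {M L : ℝ} {K : Set V}
    (hgK : ∀ t ∈ Icc α β, g t ∈ K)
    (hM0 : 0 ≤ M) (hL0 : 0 ≤ L) (hM : ∀ t ∈ Icc α β, ∀ x, ‖U t x‖ ≤ M)
    (hL : ∀ s ∈ Icc α β, ∀ t ∈ Icc α β, ∀ x ∈ K, ∀ y ∈ K, ‖U s x - U t y‖ ≤ L * (|s - t| + ‖x - y‖))
    {s t : ℝ} (hs : s ∈ Icc α β) (ht : t ∈ Icc α β) (hst : s ≤ t) :
    ‖g t - g s - (t - s) • U t (g t)‖ ≤ L * (1 + M) * (t - s) ^ 2 := by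
  have hsub : Icc s t ⊆ Icc α β := Icc_subset_Icc hs.1 ht.2
  have hts : 0 ≤ t - s := by linarith
  have h := mvt hst (g := fun τ => g τ - τ • U t (g t))
    (g' := fun τ => U τ (g τ) - U t (g t)) (C := L * (1 + M) * (t - s)) (by positivity)
    ((hgc.mono hsub).sub (by fun_prop)) ?_ ?_
  · have e : g t - g s - (t - s) • U t (g t) =
        (g t - t • U t (g t)) - (g s - s • U t (g t)) := by module
    rw [e]
    refine h.trans (le_of_eq ?_)
    ring
  · intro τ hτ
    have h1 := hode τ ⟨lt_of_le_of_lt hs.1 hτ.1, lt_of_lt_of_le hτ.2 ht.2⟩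
    have h2 : HasDerivAt (fun τ : ℝ => τ • U t (g t)) (U t (g t)) τ := by
      simpa using (hasDerivAt_id τ).smul_const (U t (g t))
    exact h1.sub h2
  · intro τ hτ
    have hτ' : τ ∈ Icc α β := hsub ⟨hτ.1.le, hτ.2.le⟩
    refine (hL τ hτ' t ht _ (hgK τ hτ') _ (hgK t ht)).trans ?_
    have h1 : |τ - t| ≤ t - s := by
      rw [abs_sub_comm, abs_of_nonneg (by linarith [hτ.2])]
      linarith [hτ.1]
    have h2 : ‖g τ - g t‖ ≤ M * (t - s) := by
      rw [norm_sub_rev]
      refine (g_lip hgc hode hM0 hM hτ' ht hτ.2.le).trans ?_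
      exact mul_le_mul_of_nonneg_left (by linarith [hτ.1]) hM0
    calc L * (|τ - t| + ‖g τ - g t‖) ≤ L * ((t - s) + M * (t - s)) :=
          mul_le_mul_of_nonneg_left (add_le_add h1 h2) hL0
      _ = L * (1 + M) * (t - s) := by ring

theorem Ye_mem {U : ℝ → V → V} {α β t h M : ℝ} {N : ℕ} (hh : 0 ≤ h) (hN : N * h = β - t)
    (hαt : α ≤ t) (hM0 : 0 ≤ M) (hM : ∀ t ∈ Icc α β, ∀ x, ‖U t x‖ ≤ M) (x : V) :
    ∀ j ≤ N, Ye U β h j x ∈ closedBall x (M * (β - α)) := by
  intro j hj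
  rw [mem_closedBall, dist_eq_norm]
  refine (Ye_disp hh hN hαt hM x j hj).trans ?_
  have h1 : (j : ℝ) ≤ N := by exact_mod_cast hj
  have h2 : (j : ℝ) * h ≤ N * h := mul_le_mul_of_nonneg_right h1 hh
  rw [mul_comm]
  exact mul_le_mul_of_nonneg_left (by linarith) hM0

theorem Ye_err {U : ℝ → V → V} {α β t h M L : ℝ} {N : ℕ} {g : ℝ → V} (x : V)
    (hgc : ContinuousOn g (Icc α β)) (hgx : g β = x)
    (hode : ∀ t ∈ Ioo α β, HasDerivAt g (U t (g t)) t)
    (hgK : ∀ t ∈ Icc α β, g t ∈ closedBall x (M * (β - α))) (hh : 0 ≤ h) (hN : N * h = β - t)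
    (hαt : α ≤ t) (hM0 : 0 ≤ M) (hL0 : 0 ≤ L) (hM : ∀ t ∈ Icc α β, ∀ x, ‖U t x‖ ≤ M)
    (hL : ∀ s ∈ Icc α β, ∀ t ∈ Icc α β, ∀ z ∈ closedBall x (M * (β - α)),
      ∀ y ∈ closedBall x (M * (β - α)), ‖U s z - U t y‖ ≤ L * (|s - t| + ‖z - y‖)) :
    ∀ j ≤ N, ‖Ye U β h j x - g (β - j * h)‖ ≤
      j * (L * (1 + M) * h ^ 2) * (1 + h * L) ^ j := by
  intro j
  induction j with
  | zero =>
    intro _
    simp [Ye, hgx]
  | succ j ih =>
    intro hj
    have h1 := ih (by omega)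
    have hτ := tau_mem hh hN (j := j) (by omega)
    have hτ' := tau_mem hh hN (j := j + 1) hj
    have hm : β - j * h ∈ Icc α β := ⟨hαt.trans hτ.1, hτ.2⟩
    have hm' : β - (j + 1 : ℕ) * h ∈ Icc α β := ⟨hαt.trans hτ'.1, hτ'.2⟩
    set τ : ℝ := β - j * h with hτd
    set σ : ℝ := β - (j + 1 : ℕ) * h with hσd
    have hd : τ - σ = h := by rw [hτd, hσd]; push_cast; ring
    have h2 := g_step hgc hode hgK hM0 hL0 hM hL hm' hm (by linarith)
    rw [hd] at h2
    have h3 := hL τ hm τ hm (Ye U β h j x) (Ye_mem hh hN hαt hM0 hM x j (by omega)) (g τ) (hgK τ hm)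
    rw [sub_self, abs_zero, zero_add] at h3
    set K : ℝ := L * (1 + M) * h ^ 2 with hK
    have hK0 : 0 ≤ K := by positivity
    have e : Ye U β h (j + 1) x - g σ = (Ye U β h j x - g τ)
        - h • (U τ (Ye U β h j x) - U τ (g τ)) + (g τ - g σ - h • U τ (g τ)) := by
      simp only [Ye]
      rw [smul_sub]
      abel
    rw [e]
    have h4 : ‖h • (U τ (Ye U β h j x) - U τ (g τ))‖ ≤ h * (L * ‖Ye U β h j x - g τ‖) := by
      rw [norm_smul, Real.norm_eq_abs, abs_of_nonneg hh]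
      exact mul_le_mul_of_nonneg_left h3 hh
    have h5 : 1 ≤ (1 + h * L) ^ (j + 1) := one_le_pow₀ (by nlinarith [mul_nonneg hh hL0])
    have h6 : 0 ≤ 1 + h * L := by positivity
    calc _ ≤ ‖(Ye U β h j x - g τ) - h • (U τ (Ye U β h j x) - U τ (g τ))‖ +
          ‖g τ - g σ - h • U τ (g τ)‖ := norm_add_le _ _
      _ ≤ (‖Ye U β h j x - g τ‖ + ‖h • (U τ (Ye U β h j x) - U τ (g τ))‖) + K :=
          add_le_add (norm_sub_le _ _) h2
      _ ≤ (1 + h * L) * ‖Ye U β h j x - g τ‖ + K := by nlinarith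
      _ ≤ (1 + h * L) * (j * K * (1 + h * L) ^ j) + K * (1 + h * L) ^ (j + 1) := by
          have h7 := mul_le_mul_of_nonneg_left h1 h6
          have h8 : K * 1 ≤ K * (1 + h * L) ^ (j + 1) := mul_le_mul_of_nonneg_left h5 hK0
          linarith
      _ = ((j + 1 : ℕ) : ℝ) * K * (1 + h * L) ^ (j + 1) := by
          push_cast
          ring

/-- the field is Lipschitz on compact sets -/
theorem loc_lip {T M L κ : ℝ} {U : ℝ → V → V} (hU : Good2 T M L κ U) {α β : ℝ} (h0 : 0 < α)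
    (hβ : β < T) (x : V) (R : ℝ) : ∃ D : ℝ, 0 ≤ D ∧ ∀ s ∈ Icc α β, ∀ t ∈ Icc α β,
      ∀ z ∈ closedBall x R, ∀ y ∈ closedBall x R, ‖U s z - U t y‖ ≤ D * (|s - t| + ‖z - y‖) := by
  have hs := hU.smooth
  set F : ℝ × V → V := fun z => U z.1 z.2 with hF
  set S : Set (ℝ × V) := Ioo 0 T ×ˢ univ with hS
  have hSo : IsOpen S := isOpen_Ioo.prod isOpen_univ
  set K : Set (ℝ × V) := Icc α β ×ˢ closedBall x R with hK
  have hKc : IsCompact K := isCompact_Icc.prod (isCompact_closedBall _ _)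
  have hKS : K ⊆ S := by
    rintro ⟨t, x⟩ ⟨ht, _⟩
    exact ⟨⟨lt_of_lt_of_le h0 ht.1, lt_of_le_of_lt ht.2 hβ⟩, mem_univ _⟩
  have hKv : Convex ℝ K := (convex_Icc α β).prod (convex_closedBall _ _)
  obtain ⟨D, hD⟩ := hKc.exists_bound_of_continuousOn
    ((hs.continuousOn_fderiv_of_isOpen hSo (by simp)).mono hKS)
  refine ⟨max D 0, le_max_right _ _, fun s hs' t ht z hz y hy => ?_⟩
  have h1 := hKv.norm_image_sub_le_of_norm_fderiv_le (f := F) (𝕜 := ℝ) (C := D)
    (fun z hz => ((hs.contDiffAt (hSo.mem_nhds (hKS hz))).differentiableAt (by simp)))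
    (fun z hz => hD z hz) (x := (t, y)) (y := (s, z)) ⟨ht, hy⟩ ⟨hs', hz⟩
  refine h1.trans ?_
  have h2 : ((s, z) - (t, y) : ℝ × V) = (s - t, z - y) := by
    rw [Prod.mk_sub_mk]
  rw [h2]
  exact mul_le_mul (le_max_left _ _) (pair_norm _ _) (norm_nonneg _) (le_max_right _ _)

theorem cont_U2 {T M L κ : ℝ} {U : ℝ → V → V} (hU : Good2 T M L κ U) {t : ℝ} (ht : t ∈ Ioo 0 T) :
    ContDiff ℝ ∞ (U t) := by
  have h1 : ContDiffOn ℝ ∞ (fun x : V => (fun z : ℝ × V => U z.1 z.2) (t, x)) univ :=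
    hU.smooth.comp (contDiff_const.prodMk contDiff_id).contDiffOn (fun x _ => ⟨ht, mem_univ _⟩)
  exact contDiffOn_univ.1 h1

theorem Ye_cont2 {T M L κ : ℝ} {U : ℝ → V → V} (hU : Good2 T M L κ U) {α β t h : ℝ} {N : ℕ}
    (h0 : 0 < α) (hβ : β < T) (hh : 0 ≤ h) (hN : N * h = β - t) (hαt : α ≤ t) :
    ∀ j ≤ N, Continuous (Ye U β h j) := by
  intro j
  induction j with
  | zero => intro _; exact continuous_id
  | succ j ih =>
    intro hj
    have h1 := ih (by omega)
    have hτ := tau_mem hh hN (j := j) (by omega)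
    have h2 : Continuous (U (β - j * h)) :=
      (cont_U2 hU ⟨lt_of_lt_of_le h0 (hαt.trans hτ.1), lt_of_le_of_lt hτ.2 hβ⟩).continuous
    exact h1.sub ((h2.comp h1).const_smul h)

/-- the integrals along the Euler scheme -/
theorem Ye_int2 {T M L κ : ℝ} {U : ℝ → V → V} (hU : Good2 T M L κ U) {α β t h C : ℝ} {N : ℕ}
    (h0 : 0 < α) (hβ : β < T) (hh : 0 ≤ h) (hN : N * h = β - t) (hαt : α ≤ t)
    (hE : ∀ W : V → V, ContDiff ℝ 1 W → (∀ x i j, |pd j (fun y => W y i) x| ≤ L) →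
      (∀ x, |dv W x| ≤ κ) → ∀ f : V → ℝ, Continuous f → HasCompactSupport f →
      (∀ x, 0 ≤ f x) → (∫ x, f (x + (-h) • W x)) ≤ Real.exp (h * κ + C * h ^ 2) * ∫ x, f x) :
    ∀ j ≤ N, ∀ f : V → ℝ, Continuous f → HasCompactSupport f → (∀ x, 0 ≤ f x) →
      (∫ x, f (Ye U β h j x)) ≤ Real.exp (j * (h * κ + C * h ^ 2)) * ∫ x, f x := by
  intro j
  induction j with
  | zero => intro _ f _ _ _; simp [Ye]
  | succ j ih =>
    intro hj f hfc hfs hf0
    have hτ := tau_mem hh hN (j := j) (by omega)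
    have hm : β - j * h ∈ Icc α β := ⟨hαt.trans hτ.1, hτ.2⟩
    have hm' : β - j * h ∈ Ioo 0 T := ⟨lt_of_lt_of_le h0 hm.1, lt_of_le_of_lt hm.2 hβ⟩
    set τ : ℝ := β - j * h with hτd
    set g : V → ℝ := fun y => f (y + (-h) • U τ y) with hg
    have hUc := cont_U2 hU hm'
    have hgc : Continuous g := hfc.comp (continuous_id.add (hUc.continuous.const_smul (-h)))
    have hgs : HasCompactSupport g := by
      refine supp_step hfs (W := fun y => y + (-h) • U τ y) (D := h * M) fun x => ?_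
      rw [add_sub_cancel_left, norm_smul, norm_neg, Real.norm_eq_abs, abs_of_nonneg hh]
      exact mul_le_mul_of_nonneg_left (hU.bd τ hm' x) hh
    have hg0 : ∀ x, 0 ≤ g x := fun x => hf0 _
    have h1 := ih (by omega) g hgc hgs hg0
    have h2 := hE (U τ) (hUc.of_le (by exact_mod_cast le_top)) (hU.lip τ hm') (hU.div τ hm')
      f hfc hfs hf0
    have e : (∫ x, f (Ye U β h (j + 1) x)) = ∫ x, g (Ye U β h j x) := by
      refine integral_congr_ae (Eventually.of_forall fun x => ?_)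
      simp only [Ye, hg]
      rw [neg_smul, ← sub_eq_add_neg]
    rw [e]
    refine h1.trans ?_
    have h3 := mul_le_mul_of_nonneg_left h2 (Real.exp_pos (j * (h * κ + C * h ^ 2))).le
    refine h3.trans (le_of_eq ?_)
    rw [← mul_assoc, ← Real.exp_add]
    congr 2
    push_cast
    ring

/-- the estimate for functions -/
theorem flow_fun (h : S_EULER2) {T M L κ : ℝ} {U : ℝ → V → V} (hU : Good2 T M L κ U) {α β : ℝ}
    (h0 : 0 < α) (hαβ : α < β) (hβ : β < T) {X : ℝ → V → V} (hX : Flow2 U α β X) {t : ℝ}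
    (ht : t ∈ Icc α β) (f : V → ℝ) (hfc : Continuous f) (hfs : HasCompactSupport f)
    (hf0 : ∀ x, 0 ≤ f x) :
    ∫ x, f (X t x) ≤ Real.exp (κ * (β - t)) * ∫ x, f x := by
  have hlt : ∀ t ∈ Icc α β, t ∈ Ioo 0 T := fun t ht =>
    ⟨lt_of_lt_of_le h0 ht.1, lt_of_le_of_lt ht.2 hβ⟩
  have hM : ∀ t ∈ Icc α β, ∀ x, ‖U t x‖ ≤ M := fun t ht x => hU.bd t (hlt t ht) x
  have hM0 : 0 ≤ M := (norm_nonneg _).trans (hM t ht 0)
  have hLL0 : 0 ≤ L := (abs_nonneg _).trans (hU.lip t (hlt t ht) 0 0 0)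
  obtain ⟨C, h₀, hC, hh0, hE⟩ := h L hLL0
  set I : ℝ := ∫ x, f x with hI
  have hI0 : 0 ≤ I := integral_nonneg hf0
  set δ : ℝ := β - t with hδ
  have hδ0 : 0 ≤ δ := by have := ht.2; rw [hδ]; linarith
  set hs : ℕ → ℝ := fun N => δ / (N + 1 : ℕ) with hhs
  have hs0 : ∀ N, 0 ≤ hs N := fun N => by positivity
  have hsN : ∀ N, ((N + 1 : ℕ) : ℝ) * hs N = δ := fun N => by
    have : ((N + 1 : ℕ) : ℝ) ≠ 0 := by positivity
    rw [hhs]
    field_simp
  have hst : Tendsto hs atTop (𝓝 0) := by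
    have h1 : Tendsto (fun N : ℕ => δ / (N : ℝ)) atTop (𝓝 0) := tendsto_const_div_atTop_nhds_zero_nat δ
    exact h1.comp (tendsto_add_atTop_nat 1)
  -- the integrals are bounded
  have hev : ∀ᶠ N in atTop, (∫ x, f (Ye U β (hs N) (N + 1) x)) ≤
      Real.exp (κ * δ + C * δ * hs N) * I := by
    have h4 : ∀ᶠ N in atTop, hs N < h₀ := hst.eventually (gt_mem_nhds hh0)
    filter_upwards [h4] with N hN
    have h5 := Ye_int2 (C := C) hU h0 hβ (hs0 N) (hsN N) ht.1
      (fun W hW1 hW2 hW3 f hf1 hf2 hf3 => by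
        have h6 := hE κ W hW1 hW2 hW3 (-(hs N)) (by
          rw [abs_neg, abs_of_nonneg (hs0 N)]; exact hN.le) f hf1 hf2 hf3
        rwa [neg_sq, abs_neg, abs_of_nonneg (hs0 N)] at h6) (N + 1) le_rfl f hfc hfs hf0
    have h8 : ((N + 1 : ℕ) : ℝ) * (hs N * κ + C * hs N ^ 2) = κ * δ + C * δ * hs N := by
      calc ((N + 1 : ℕ) : ℝ) * (hs N * κ + C * hs N ^ 2) =
          κ * (((N + 1 : ℕ) : ℝ) * hs N) + C * (((N + 1 : ℕ) : ℝ) * hs N) * hs N := by ring
        _ = _ := by rw [hsN]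
    rw [h8] at h5
    exact h5
  have hlim1 : Tendsto (fun N => Real.exp (κ * δ + C * δ * hs N) * I) atTop
      (𝓝 (Real.exp (κ * δ) * I)) := by
    have hcont : Continuous fun y : ℝ => Real.exp (κ * δ + C * δ * y) * I := by fun_prop
    have h2 := (hcont.tendsto 0).comp hst
    rw [mul_zero, add_zero] at h2
    exact h2
  -- they converge to the integral along the flow
  have hpt : ∀ x, Tendsto (fun N => Ye U β (hs N) (N + 1) x) atTop (𝓝 (X t x)) := by
    intro x
    obtain ⟨D, hD0, hD⟩ := loc_lip hU h0 hβ x (M * (β - α))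
    have hgc : ContinuousOn (fun τ => X τ x) (Icc α β) := by
      have h1 : ContinuousOn (fun τ : ℝ => ((τ, x) : ℝ × V)) (Icc α β) := by fun_prop
      exact hX.cont.comp h1 fun τ hτ => ⟨hτ, mem_univ _⟩
    have hgK : ∀ t ∈ Icc α β, X t x ∈ closedBall x (M * (β - α)) := by
      intro s hs'
      have h1 := g_lip (g := fun τ => X τ x) hgc (hX.ode x) hM0 hM hs' (right_mem_Icc.2 hαβ.le) hs'.2
      rw [mem_closedBall, dist_eq_norm, norm_sub_rev]
      simp only [hX.fin] at h1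
      exact h1.trans (mul_le_mul_of_nonneg_left (by linarith [hs'.1]) hM0)
    have h1 : Tendsto (fun N => δ * (D * (1 + M)) * hs N * Real.exp (δ * D)) atTop (𝓝 0) := by
      have h2 := (hst.const_mul (δ * (D * (1 + M)))).mul_const (Real.exp (δ * D))
      simpa using h2
    have h3 : ∀ N, ‖Ye U β (hs N) (N + 1) x - X t x‖ ≤
        δ * (D * (1 + M)) * hs N * Real.exp (δ * D) := by
      intro N
      have h4 := Ye_err (g := fun τ => X τ x) x hgc (hX.fin x) (hX.ode x) hgK (hs0 N) (hsN N) ht.1 hM0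
        hD0 hM hD (N + 1) le_rfl
      have h5 : β - ((N + 1 : ℕ) : ℝ) * hs N = t := by rw [hsN, hδ]; ring
      rw [h5] at h4
      refine h4.trans ?_
      have h6 := pow_le_exp' (x := hs N * D) (by have := hs0 N; positivity) (N + 1)
      have h7 : ((N + 1 : ℕ) : ℝ) * (hs N * D) = δ * D := by rw [← mul_assoc, hsN]
      rw [h7] at h6
      have h8 : ((N + 1 : ℕ) : ℝ) * (D * (1 + M) * hs N ^ 2) = δ * (D * (1 + M)) * hs N := by
        calc ((N + 1 : ℕ) : ℝ) * (D * (1 + M) * hs N ^ 2) =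
              (((N + 1 : ℕ) : ℝ) * hs N) * (D * (1 + M)) * hs N := by ring
          _ = _ := by rw [hsN]
      rw [h8]
      refine mul_le_mul_of_nonneg_left h6 ?_
      have := hs0 N
      positivity
    exact tendsto_iff_norm_sub_tendsto_zero.2 (squeeze_zero (fun _ => norm_nonneg _) h3 h1)
  obtain ⟨B, hB⟩ := hfs.exists_bound_of_continuous hfc
  obtain ⟨R, hR⟩ := hfs.isBounded.subset_closedBall (0 : V)
  have hlim2 : Tendsto (fun N => ∫ x, f (Ye U β (hs N) (N + 1) x)) atTop (𝓝 (∫ x, f (X t x))) := by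
    refine tendsto_integral_of_dominated_convergence
      ((closedBall (0 : V) (R + δ * M)).indicator fun _ => B) ?_ ?_ ?_ ?_
    · intro N
      exact (hfc.comp (Ye_cont2 hU h0 hβ (hs0 N) (hsN N) ht.1 (N + 1) le_rfl)).aestronglyMeasurable
    · rw [integrable_indicator_iff measurableSet_closedBall]
      exact integrableOn_const (by
        exact (isCompact_closedBall (0 : V) (R + δ * M)).measure_lt_top.ne) (by simp)
    · intro N
      refine Eventually.of_forall fun x => ?_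
      by_cases hx : x ∈ closedBall (0 : V) (R + δ * M)
      · rw [indicator_of_mem hx]
        exact hB _
      · rw [indicator_of_notMem hx]
        have h1 : Ye U β (hs N) (N + 1) x ∉ tsupport f := by
          intro hm
          have h2 := hR hm
          rw [mem_closedBall, dist_zero_right] at h2
          apply hx
          rw [mem_closedBall, dist_zero_right]
          have h3 := Ye_disp (hs0 N) (hsN N) ht.1 hM x (N + 1) le_rfl
          rw [hsN] at h3
          have h4 : x = Ye U β (hs N) (N + 1) x - (Ye U β (hs N) (N + 1) x - x) := by abel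
          rw [h4]
          refine (norm_sub_le _ _).trans ?_
          linarith
        rw [image_eq_zero_of_notMem_tsupport h1, norm_zero]
    · exact Eventually.of_forall fun x => (hfc.tendsto _).comp (hpt x)
  exact le_of_tendsto_of_tendsto hlim2 hlim1 hev

/-- from functions to measures -/
theorem to_meas (Y : V → V) (hY : Continuous Y) (D c : ℝ) (hYD : ∀ x, ‖Y x - x‖ ≤ D)
    (hc : 0 ≤ c) (h : ∀ f : V → ℝ, Continuous f → HasCompactSupport f → (∀ x, 0 ≤ f x) →
      ∫ x, f (Y x) ≤ c * ∫ x, f x) :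
    Measure.map Y (volume : Measure V) ≤ ENNReal.ofReal c • volume := by
  have hf : ∀ f : V → ℝ, Continuous f → HasCompactSupport f → (∀ x, 0 ≤ f x) →
      ∫⁻ y, ENNReal.ofReal (f y) ∂(Measure.map Y (volume : Measure V)) ≤
        ENNReal.ofReal c * ∫⁻ y, ENNReal.ofReal (f y) := by
    intro f hfc hfs hf0
    rw [lintegral_map (by fun_prop) hY.measurable]
    have hfi : Integrable f := hfc.integrable_of_hasCompactSupport hfs
    have hfYi : Integrable (fun x => f (Y x)) :=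
      (hfc.comp hY).integrable_of_hasCompactSupport (supp_step hfs hYD)
    rw [← ofReal_integral_eq_lintegral_ofReal hfi (Eventually.of_forall hf0),
      ← ofReal_integral_eq_lintegral_ofReal hfYi (Eventually.of_forall fun x => hf0 _),
      ← ENNReal.ofReal_mul hc]
    exact ENNReal.ofReal_le_ofReal (h f hfc hfs hf0)
  have hK : ∀ K O : Set V, IsCompact K → IsOpen O → K ⊆ O →
      Measure.map Y (volume : Measure V) K ≤ ENNReal.ofReal c * volume O := by
    intro K O hKc hO hKO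
    obtain ⟨f, hf1, hf2, hf3, hf4⟩ := exists_continuous_one_zero_of_isCompact hKc hO.isClosed_compl
      (disjoint_compl_right_iff_subset.2 hKO)
    have h1 := hf f f.continuous hf3 (fun x => (hf4 x).1)
    have h2 : Measure.map Y (volume : Measure V) K ≤
        ∫⁻ y, ENNReal.ofReal (f y) ∂(Measure.map Y (volume : Measure V)) := by
      rw [← lintegral_indicator_one hKc.measurableSet]
      refine lintegral_mono fun y => ?_
      by_cases hy : y ∈ K
      · rw [indicator_of_mem hy, hf1 hy]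
        simp
      · rw [indicator_of_notMem hy]
        exact zero_le
    have h3 : ∫⁻ y, ENNReal.ofReal (f y) ≤ (volume : Measure V) O := by
      rw [← lintegral_indicator_one hO.measurableSet]
      refine lintegral_mono fun y => ?_
      by_cases hy : y ∈ O
      · rw [indicator_of_mem hy]
        simp only [Pi.one_apply]
        rw [← ENNReal.ofReal_one]
        exact ENNReal.ofReal_le_ofReal (hf4 y).2
      · rw [indicator_of_notMem hy, hf2 hy]
        simp
    exact h2.trans (h1.trans (mul_le_mul_right h3 _))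
  have hO : ∀ O : Set V, IsOpen O →
      Measure.map Y (volume : Measure V) O ≤ ENNReal.ofReal c * volume O := by
    intro O hO
    obtain ⟨F, hF1, hF2, hF3, hF4⟩ := hO.exists_iUnion_isClosed
    have hmono : Monotone (fun n : ℕ => F n ∩ closedBall (0 : V) n) := fun m n hmn =>
      inter_subset_inter (hF4 hmn) (closedBall_subset_closedBall (by exact_mod_cast hmn))
    have hU : ⋃ n : ℕ, F n ∩ closedBall (0 : V) n = O := by
      apply Subset.antisymm
      · exact iUnion_subset fun n => inter_subset_left.trans (hF2 n)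
      · intro x hx
        rw [← hF3] at hx
        obtain ⟨n, hn⟩ := mem_iUnion.1 hx
        obtain ⟨m, hm⟩ := exists_nat_ge ‖x‖
        refine mem_iUnion.2 ⟨max n m, hF4 (le_max_left n m) hn, ?_⟩
        rw [mem_closedBall, dist_zero_right]
        refine hm.trans ?_
        exact_mod_cast le_max_right n m
    rw [← hU, hmono.measure_iUnion, hU]
    refine iSup_le fun n => ?_
    exact hK _ O ((isCompact_closedBall (0 : V) n).inter_left (hF1 n)) hO
      (inter_subset_left.trans (hF2 n))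
  rw [Measure.le_iff]
  intro A _
  have : (ENNReal.ofReal c • (volume : Measure V)).OuterRegular :=
    Measure.OuterRegular.smul _ ENNReal.ofReal_ne_top
  rw [A.measure_eq_iInf_isOpen (ENNReal.ofReal c • (volume : Measure V))]
  refine le_iInf fun O => le_iInf fun hAO => le_iInf fun hOo => ?_
  refine (measure_mono hAO).trans ((hO O hOo).trans (le_of_eq ?_))
  rw [Measure.smul_apply, smul_eq_mul]

/-- FLOWM2 -/
theorem t_FLOWM2 (h : S_EULER2) : S_FLOWM2 := by
  intro T M L κ U hU α β h0 hαβ hβ X hX t ht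
  have hlt : ∀ t ∈ Icc α β, t ∈ Ioo 0 T := fun t ht =>
    ⟨lt_of_lt_of_le h0 ht.1, lt_of_le_of_lt ht.2 hβ⟩
  have hM : ∀ t ∈ Icc α β, ∀ x, ‖U t x‖ ≤ M := fun t ht x => hU.bd t (hlt t ht) x
  have hM0 : 0 ≤ M := (norm_nonneg _).trans (hM t ht 0)
  have hκ0 : 0 ≤ κ := (abs_nonneg _).trans (hU.div t (hlt t ht) 0)
  have hXc : Continuous (X t) := by
    have h1 : ContinuousOn (fun x : V => ((t, x) : ℝ × V)) univ := by fun_prop
    exact continuousOn_univ.1 (hX.cont.comp h1 fun x _ => ⟨ht, mem_univ _⟩)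
  refine to_meas (X t) hXc (M * (β - α)) _ (fun x => ?_) (Real.exp_pos _).le
    (fun f hfc hfs hf0 => ?_)
  · have hgc : ContinuousOn (fun τ => X τ x) (Icc α β) := by
      have h1 : ContinuousOn (fun τ : ℝ => ((τ, x) : ℝ × V)) (Icc α β) := by fun_prop
      exact hX.cont.comp h1 fun τ hτ => ⟨hτ, mem_univ _⟩
    have h1 := g_lip (g := fun τ => X τ x) hgc (hX.ode x) hM0 hM ht (right_mem_Icc.2 hαβ.le) ht.2
    rw [norm_sub_rev]
    simp only [hX.fin] at h1
    exact h1.trans (mul_le_mul_of_nonneg_left (by linarith [ht.1]) hM0)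
  · refine (flow_fun h hU h0 hαβ hβ hX ht f hfc hfs hf0).trans ?_
    refine mul_le_mul_of_nonneg_right (Real.exp_le_exp.2 ?_) (integral_nonneg hf0)
    exact mul_le_mul_of_nonneg_left (by linarith [ht.1]) hκ0

end Pool.Agent.W460.ME
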